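import Pool.Agent.LRY.Stmts

/-!
Squad LRY, row RSF: a subfield of `ℂ` inside `K` as a subfield of `K`.
-/

set_option autoImplicit false

open Polynomial NumberField

namespace Pool.Agent.LRY.H82

open Pool.Agent.LRY Pool.Agent.LRG.E

/-- **RSF**. -/
theorem rsf : RsfStmt := by
  intro E K _ hEK
  let E' : IntermediateField ℚ K := IntermediateField.restrict hEK
  let f : E ≃ₐ[ℚ] E' := IntermediateField.restrictAlgEquiv hEK
  refine ⟨E', f.symm.toRingEquiv, ?_, ?_, ?_⟩
  · intro y
    obtain ⟨z, rfl⟩ := f.surjective y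
    have h1 : f.symm.toRingEquiv (f z) = z := f.symm_apply_apply z
    rw [h1]
    rfl
  · have h1 : Module.finrank ℚ E = Module.finrank ℚ E' := f.toLinearEquiv.finrank_eq
    rw [h1]
    exact Module.finrank_mul_finrank ℚ E' K
  · intro z
    exact IntermediateField.mem_restrict hEK z

end Pool.Agent.LRY.H82
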